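import Pool.Agent.Helper95.PW.Stmts

/-!
# Row TUP: a priori bounds of the three parts of the energy
-/

set_option autoImplicit false

namespace Pool.Agent.Helper95.PW

open MeasureTheory Filter

theorem TUP_kin_nonneg {n : ℕ} (u : Wf n) : 0 ≤ kin u := by
  unfold kin sq
  exact Finset.sum_nonneg fun k _ => Finset.sum_nonneg fun i _ => Finset.sum_nonneg fun s _ =>
    integral_nonneg fun x => sq_nonneg _

theorem TUP_nr_nonneg (y : R3) : 0 ≤ nr y := Real.sqrt_nonneg _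

theorem TUP_rep_nonneg {n : ℕ} (x : Cf n) : 0 ≤ rep x := by
  unfold rep
  refine Finset.sum_nonneg fun k _ => Finset.sum_nonneg fun l _ => ?_
  split_ifs
  · exact div_nonneg zero_le_one (TUP_nr_nonneg _)
  · exact le_rfl

theorem TUP_pair_nonneg {n : ℕ} (u : Wf n) : 0 ≤ pair u := by
  unfold pair
  exact Finset.sum_nonneg fun s _ =>
    integral_nonneg fun x => mul_nonneg (TUP_rep_nonneg x) (sq_nonneg _)

theorem TUP_aux {C t k p a : ℝ} (hC : 0 < C) (ht : 1 ≤ t) (hk : 0 ≤ k) (hp : 0 ≤ p)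
    (h1 : k + p - a ≤ 1) (h2 : a ≤ C * t * Real.sqrt k) :
    k ≤ (3 + C ^ 2 + C * Real.sqrt (2 + C ^ 2)) * t ^ 2 ∧
    p ≤ (3 + C ^ 2 + C * Real.sqrt (2 + C ^ 2)) * t ^ 2 ∧
    a ≤ (3 + C ^ 2 + C * Real.sqrt (2 + C ^ 2)) * t ^ 2 := by
  have ht2 : 1 ≤ t ^ 2 := by nlinarith
  have hs : 0 ≤ Real.sqrt k := Real.sqrt_nonneg k
  have hss : Real.sqrt k ^ 2 = k := Real.sq_sqrt hk
  have hk1 : k ≤ (2 + C ^ 2) * t ^ 2 := by
    have h3 : 2 * (C * t * Real.sqrt k) ≤ (C * t) ^ 2 + Real.sqrt k ^ 2 := by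
      nlinarith [sq_nonneg (C * t - Real.sqrt k)]
    nlinarith
  have hD : 0 ≤ Real.sqrt (2 + C ^ 2) := Real.sqrt_nonneg _
  have hk2 : Real.sqrt k ≤ Real.sqrt (2 + C ^ 2) * t := by
    have h4 : Real.sqrt k ≤ Real.sqrt ((2 + C ^ 2) * t ^ 2) := Real.sqrt_le_sqrt hk1
    rwa [Real.sqrt_mul (by positivity), Real.sqrt_sq (by linarith)] at h4
  have ha : a ≤ C * Real.sqrt (2 + C ^ 2) * t ^ 2 := by
    have h5 : C * t * Real.sqrt k ≤ C * t * (Real.sqrt (2 + C ^ 2) * t) :=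
      mul_le_mul_of_nonneg_left hk2 (by positivity)
    nlinarith
  have hCD : 0 ≤ C * Real.sqrt (2 + C ^ 2) * t ^ 2 := by positivity
  have hC2 : 0 ≤ C ^ 2 * t ^ 2 := by positivity
  refine ⟨by nlinarith, by nlinarith, by nlinarith⟩

theorem st_TUP (hATT : ST_ATT) : ST_TUP := by
  obtain ⟨C, hC, h⟩ := hATT
  refine ⟨3 + C ^ 2 + C * Real.sqrt (2 + C ^ 2), by positivity, ?_⟩
  intro n u hn hu ha hs hQ
  have hn' : (1 : ℝ) ≤ n := by exact_mod_cast hn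
  have hn0 : (0 : ℝ) < n := by linarith
  have hA := h n u hn hu ha hs
  have ht : (1 : ℝ) ≤ (n : ℝ) ^ (7 / 6 : ℝ) := Real.one_le_rpow hn' (by norm_num)
  have ht2 : ((n : ℝ) ^ (7 / 6 : ℝ)) ^ 2 = (n : ℝ) ^ (7 / 3 : ℝ) := by
    rw [← Real.rpow_natCast, ← Real.rpow_mul hn0.le]
    norm_num
  have ht1 : (n : ℝ) * (n : ℝ) ^ (1 / 6 : ℝ) = (n : ℝ) ^ (7 / 6 : ℝ) := by
    nth_rewrite 1 [← Real.rpow_one (n : ℝ)]
    rw [← Real.rpow_add hn0]
    norm_num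
  have h2 : (n : ℝ) * one (fun y => 1 / nr y) u ≤
      C * (n : ℝ) ^ (7 / 6 : ℝ) * Real.sqrt (kin u) := by
    rw [← ht1]
    have h3 := mul_le_mul_of_nonneg_left hA hn0.le
    linarith
  have hQ' : kin u + pair u - (n : ℝ) * one (fun y => 1 / nr y) u ≤ 1 := hQ
  have h4 := TUP_aux hC ht (TUP_kin_nonneg u) (TUP_pair_nonneg u) hQ' h2
  rw [ht2] at h4
  exact h4

end Pool.Agent.Helper95.PW
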